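import Pool.Agent.H73.CU.C
import Pool.Graph.R_pool_sql_team_seeded_35f281b4.K7.H67.SIV.Poly

set_option autoImplicit false

/-!
# Values of a polynomial in sequences which are linear along progressions
-/

namespace Pool.Agent.H73.EF

open Finset Polynomial Pool.Agent.H73.CU

/-- `n W(n) + V(n)` -/
theorem lin_mul {D D' : ℤ} {W V : ℕ → ℤ} (hW : Per2 D W)
    (hW0 : ∀ p : ℕ, p.Prime → ¬ (p : ℤ) ∣ D → ∀ n, ¬ (p : ℤ) ∣ W n) (hV : Per2 D' V) :
    Lin (D * D') fun n => n * W n + V n := by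
  intro p hp hD n
  have fp : Fact p.Prime := ⟨hp⟩
  have hb : ¬ (p : ℤ) ∣ D := fun h => hD (h.mul_right _)
  have hD' : ¬ (p : ℤ) ∣ D' := fun h => hD (h.mul_left _)
  refine ⟨-(W n), ?_, fun j => ?_⟩
  · rw [dvd_neg]
    exact hW0 p hp hb n
  · rw [← ZMod.intCast_zmod_eq_zero_iff_dvd]
    have h1 := per2_iter hW hp hb n j
    have h2 := per2_iter hV hp hD' n j
    have h3 : ((p ^ 2 - 1 : ℕ) : ZMod p) = -1 := by
      rw [Nat.cast_sub (Nat.one_le_pow _ _ hp.pos)]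
      push_cast
      rw [ZMod.natCast_self]
      ring
    push_cast
    rw [h1, h2, h3]
    ring

theorem lin_shift {D : ℤ} {a : ℕ → ℤ} (ha : Lin D a) (M : ℕ) (j : ℤ) :
    Lin D fun n => a (M + n) + j := by
  intro p hp hD n
  obtain ⟨c, hc0, hc⟩ := ha p hp hD (M + n)
  refine ⟨c, hc0, fun i => ?_⟩
  have h1 := hc i
  have e : a (M + (n + (p ^ 2 - 1) * i)) + j - (a (M + n) + j) - c * i =
      a (M + n + (p ^ 2 - 1) * i) - a (M + n) - c * i := by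
    rw [← add_assoc]
    ring
  rw [e]
  exact h1

open Classical in
/-- the sieve -/
theorem sieve {D : ℤ} {a : ℕ → ℤ} (ha : Lin D a) (P : Finset ℕ) (x N : ℕ)
    (hP : ∀ p ∈ P, Gp D p ∧ p ≤ x) (hN : x ^ 8 ≤ N) (I : ∀ p : ℕ, ZMod p → Prop) (κ : ℝ)
    (hκ : 0 < κ)
    (hI : ∀ p ∈ P, κ * p ≤ p - (((range p).filter fun n : ℕ => I p (n : ZMod p)).card : ℝ)) :
    (((range N).filter fun n => ∀ p ∈ P, I p (a n : ZMod p)).card : ℝ) * (κ ^ 2 * P.card) ≤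
      14 * N := by
  have hNr : (0 : ℝ) ≤ N := Nat.cast_nonneg N
  rcases P.eq_empty_or_nonempty with rfl | hPne
  · rw [card_empty]
    push_cast
    linarith
  have hPc : (1 : ℝ) ≤ P.card := by exact_mod_cast card_pos.2 hPne
  obtain ⟨m, hm⟩ : ∃ m : ℕ → ℝ, m = fun p =>
    ((((range p).filter fun n : ℕ => I p (n : ZMod p)).card : ℝ) / p) := ⟨_, rfl⟩
  obtain ⟨h, hh⟩ : ∃ h : ∀ p : ℕ, ZMod p → ℝ, h = fun p t => (if I p t then (1 : ℝ) else 0) - m p :=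
    ⟨_, rfl⟩
  have hm01 : ∀ p, 0 ≤ m p ∧ m p ≤ 1 := by
    intro p
    rw [hm]
    refine ⟨by positivity, ?_⟩
    simp only
    apply div_le_one_of_le₀ _ (Nat.cast_nonneg p)
    have := card_filter_le (range p) (fun n : ℕ => I p (n : ZMod p))
    rw [card_range] at this
    exact_mod_cast this
  have h1 : ∀ p t, |h p t| ≤ 1 := by
    intro p t
    rw [hh, abs_le]
    simp only
    have := hm01 p
    split_ifs <;> constructor <;> linarith
  have h0 : ∀ p ∈ P, ∑ n ∈ range p, h p (n : ZMod p) = 0 := by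
    intro p hp
    have hp0 : (p : ℝ) ≠ 0 := by exact_mod_cast (hP p hp).1.1.ne_zero
    rw [hh]
    simp only
    rw [sum_sub_distrib, sum_boole, sum_const, card_range, nsmul_eq_mul, hm]
    field_simp
    ring
  have hV : ∑ p ∈ P, (∑ n ∈ range p, h p (n : ZMod p) ^ 2) / p ≤ (P.card : ℝ) := by
    calc ∑ p ∈ P, (∑ n ∈ range p, h p (n : ZMod p) ^ 2) / p ≤ ∑ _p ∈ P, (1 : ℝ) := by
          refine sum_le_sum fun p hp => ?_
          apply div_le_one_of_le₀ _ (Nat.cast_nonneg p)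
          calc ∑ n ∈ range p, h p (n : ZMod p) ^ 2 ≤ ∑ _n ∈ range p, (1 : ℝ) := by
                refine sum_le_sum fun n _ => ?_
                rw [← sq_abs]
                exact pow_le_one₀ (abs_nonneg _) (h1 _ _)
            _ = p := by rw [sum_const, card_range, nsmul_eq_mul, mul_one]
      _ = P.card := by rw [sum_const, nsmul_eq_mul, mul_one]
  have hmom := moment ha P x hP h h1 h0 P.card hPc hV 1 N (by simpa using hN)
  simp only [mul_one, pow_one] at hmom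
  have hlow : ∀ n ∈ (range N).filter fun n => ∀ p ∈ P, I p (a n : ZMod p),
      (κ * P.card) ^ 2 ≤ (∑ p ∈ P, h p (a n : ZMod p)) ^ 2 := by
    intro n hn
    apply pow_le_pow_left₀ (by positivity)
    calc κ * P.card = ∑ _p ∈ P, κ := by rw [sum_const, nsmul_eq_mul]; ring
      _ ≤ ∑ p ∈ P, h p (a n : ZMod p) := by
          refine sum_le_sum fun p hp => ?_
          have hpp : (0 : ℝ) < p := by exact_mod_cast (hP p hp).1.1.pos
          rw [hh]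
          simp only
          rw [if_pos ((mem_filter.1 hn).2 p hp), hm]
          simp only
          have := hI p hp
          rw [le_sub_comm, div_le_iff₀ hpp]
          linarith
  have h2 : (((range N).filter fun n => ∀ p ∈ P, I p (a n : ZMod p)).card : ℝ) *
      (κ * P.card) ^ 2 ≤ N * (((2 : ℕ).factorial : ℝ) * (2 * Real.exp 1) + 2) * P.card := by
    calc _ = ∑ _n ∈ (range N).filter fun n => ∀ p ∈ P, I p (a n : ZMod p), (κ * P.card : ℝ) ^ 2 := by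
          rw [sum_const, nsmul_eq_mul]
      _ ≤ ∑ n ∈ (range N).filter fun n => ∀ p ∈ P, I p (a n : ZMod p),
            (∑ p ∈ P, h p (a n : ZMod p)) ^ 2 := sum_le_sum hlow
      _ ≤ ∑ n ∈ range N, (∑ p ∈ P, h p (a n : ZMod p)) ^ 2 :=
          sum_le_sum_of_subset_of_nonneg (filter_subset _ _) (fun _ _ _ => sq_nonneg _)
      _ ≤ _ := by
          refine hmom.trans (le_of_eq ?_)
          ring
  have h3 : (((2 : ℕ).factorial : ℝ) * (2 * Real.exp 1) + 2) ≤ 14 := by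
    have := Real.exp_one_lt_d9
    norm_num [Nat.factorial]
    linarith
  have h4 : (((range N).filter fun n => ∀ p ∈ P, I p (a n : ZMod p)).card : ℝ) *
      (κ ^ 2 * P.card) * P.card ≤ (14 * N) * P.card := by
    calc _ = (((range N).filter fun n => ∀ p ∈ P, I p (a n : ZMod p)).card : ℝ) *
          (κ * P.card) ^ 2 := by ring
      _ ≤ _ := h2
      _ ≤ (14 * N) * P.card := by
          apply mul_le_mul_of_nonneg_right _ (by linarith)
          nlinarith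
  exact le_of_mul_le_mul_right h4 (by linarith)

/-- removing the primes which divide `D` -/
theorem card_good (P : Finset ℕ) (hP : ∀ p ∈ P, p.Prime) (D : ℤ) (hD : D ≠ 0) (K : ℝ)
    (hK : Real.log |(D : ℝ)| ≤ K) : ∃ P' : Finset ℕ, P' ⊆ P ∧ (∀ p ∈ P', Gp D p) ∧
      (P.card : ℝ) ≤ P'.card + 1 + 2 * K := by
  classical
  refine ⟨P.filter (fun p => Gp D p), filter_subset _ _, fun p hp => (mem_filter.1 hp).2, ?_⟩
  have h1 : P ⊆ P.filter (fun p => Gp D p) ∪ ({2} ∪ D.natAbs.primeFactors) := by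
    intro p hp
    by_cases h : Gp D p
    · exact mem_union_left _ (mem_filter.2 ⟨hp, h⟩)
    · apply mem_union_right
      rw [mem_union, mem_singleton, Nat.mem_primeFactors]
      unfold Gp at h
      by_cases h2 : p = 2
      · exact Or.inl h2
      · right
        refine ⟨hP p hp, ?_, Int.natAbs_ne_zero.2 hD⟩
        by_contra h3
        exact h ⟨hP p hp, h2, fun h4 => h3 (Int.natCast_dvd.1 h4)⟩
  have h2 : P.card ≤ (P.filter (fun p => Gp D p)).card + (1 + D.natAbs.primeFactors.card) := by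
    refine (card_le_card h1).trans ((card_union_le _ _).trans ?_)
    have := card_union_le {2} D.natAbs.primeFactors
    rw [card_singleton] at this
    omega
  have h3 : (D.natAbs.primeFactors.card : ℝ) ≤ 2 * K := by
    have h4 : 2 ^ D.natAbs.primeFactors.card ≤ D.natAbs := by
      calc 2 ^ D.natAbs.primeFactors.card = ∏ _p ∈ D.natAbs.primeFactors, 2 := by rw [prod_const]
        _ ≤ ∏ p ∈ D.natAbs.primeFactors, p :=
            prod_le_prod' fun p hp => (Nat.prime_of_mem_primeFactors hp).two_le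
        _ ≤ D.natAbs := Nat.le_of_dvd (Int.natAbs_pos.2 hD) (Nat.prod_primeFactors_dvd _)
    have h5 : ((2 : ℝ) ^ D.natAbs.primeFactors.card) ≤ |(D : ℝ)| := by
      have : ((D.natAbs : ℕ) : ℝ) = |(D : ℝ)| := by
        rw [Nat.cast_natAbs, Int.cast_abs]
      rw [← this]
      exact_mod_cast h4
    have h6 := Real.log_le_log (by positivity) h5
    rw [Real.log_pow] at h6
    have h7 := Real.log_two_gt_d9
    have h8 : (0 : ℝ) ≤ D.natAbs.primeFactors.card := Nat.cast_nonneg _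
    nlinarith
  have h4 : (P.card : ℝ) ≤ (P.filter (fun p => Gp D p)).card + (1 + D.natAbs.primeFactors.card) := by
    exact_mod_cast h2
  linarith

open Classical in
/-- few values of a polynomial of degree at least two -/
theorem few_poly (U : ℤ[X]) (hU : 2 ≤ U.natDegree) : ∃ Q₀ : ℕ, ∀ Q : ℕ, Q₀ ≤ Q → ∀ N : ℕ,
    Q ^ 8 ≤ N → ∀ D : ℤ, D ≠ 0 → Real.log |(D : ℝ)| ≤ (Q : ℝ) ^ (1 / 2 : ℝ) → ∀ a : ℕ → ℤ,
    Lin D a → (((range N).filter fun n => ∃ k : ℤ, U.eval k = a n).card : ℝ) *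
      (Q : ℝ) ^ (4 / 5 : ℝ) ≤ N := by
  obtain ⟨Q₀, hQ₀⟩ := Pool.Agent.K7.H67.SIV.many_collisions U hU
  obtain ⟨d, hd⟩ : ∃ d, d = U.natDegree := ⟨_, rfl⟩
  have hd1 : 1 ≤ d := by omega
  have hdr : (1 : ℝ) ≤ d := by exact_mod_cast hd1
  have hev : ∀ᶠ Q : ℕ in Filter.atTop, (Q : ℝ) ^ (17 / 20 : ℝ) + 1 + 2 * (Q : ℝ) ^ (1 / 2 : ℝ) ≤
      (Q : ℝ) ^ (9 / 10 : ℝ) ∧ 56 * (d : ℝ) ^ 2 ≤ (Q : ℝ) ^ (1 / 20 : ℝ) ∧ 1 ≤ Q := by
    have hc := tendsto_natCast_atTop_atTop (R := ℝ)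
    have e1 : ∀ᶠ x : ℝ in Filter.atTop, (4 : ℝ) ≤ x ^ (1 / 20 : ℝ) :=
      (tendsto_rpow_atTop (by norm_num : (0 : ℝ) < 1 / 20)).eventually_ge_atTop _
    have e2 : ∀ᶠ x : ℝ in Filter.atTop, (56 : ℝ) * d ^ 2 ≤ x ^ (1 / 20 : ℝ) :=
      (tendsto_rpow_atTop (by norm_num : (0 : ℝ) < 1 / 20)).eventually_ge_atTop _
    filter_upwards [hc.eventually e1, hc.eventually e2, Filter.eventually_ge_atTop 1] with Q a1 a2 a3
    have hQ1 : (1 : ℝ) ≤ Q := by exact_mod_cast a3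
    have hQ0 : (0 : ℝ) < Q := by linarith
    refine ⟨?_, a2, a3⟩
    have e3 : (Q : ℝ) ^ (9 / 10 : ℝ) = (Q : ℝ) ^ (1 / 20 : ℝ) * (Q : ℝ) ^ (17 / 20 : ℝ) := by
      rw [← Real.rpow_add hQ0]
      norm_num
    have e4 : (Q : ℝ) ^ (1 / 2 : ℝ) ≤ (Q : ℝ) ^ (17 / 20 : ℝ) :=
      Real.rpow_le_rpow_of_exponent_le hQ1 (by norm_num)
    have e5 : (1 : ℝ) ≤ (Q : ℝ) ^ (17 / 20 : ℝ) := Real.one_le_rpow hQ1 (by norm_num)
    rw [e3]
    nlinarith
  obtain ⟨Q₁, hQ₁⟩ := hev.exists_forall_of_atTop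
  refine ⟨max Q₀ Q₁, fun Q hQ N hN D hD hDQ a ha => ?_⟩
  obtain ⟨a1, a2, a3⟩ := hQ₁ Q (le_trans (le_max_right _ _) hQ)
  obtain ⟨P₀, hP₀, hP₀c⟩ := hQ₀ Q (le_trans (le_max_left _ _) hQ)
  obtain ⟨P, hPP, hPg, hPc⟩ := card_good P₀ (fun p hp => (hP₀ p hp).1) D hD _ hDQ
  have hP17 : (Q : ℝ) ^ (17 / 20 : ℝ) ≤ P.card := by linarith
  have hQ1 : (1 : ℝ) ≤ Q := by exact_mod_cast a3
  have hQ0 : (0 : ℝ) < Q := by linarith
  have h1 := sieve ha P Q N (fun p hp => ⟨hPg p hp, (hP₀ p (hPP hp)).2.1⟩) hN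
    (fun p t => ∃ k : ℤ, ((U.eval k : ℤ) : ZMod p) = t) (1 / (2 * d)) (by positivity) (by
      intro p hp
      obtain ⟨b1, b2, r, b3⟩ := hP₀ p (hPP hp)
      have fp : Fact p.Prime := ⟨b1⟩
      obtain ⟨u, hu⟩ : ∃ u : (ZMod p)[X], u = U.map (Int.castRingHom (ZMod p)) := ⟨_, rfl⟩
      have hev : ∀ k : ℤ, u.eval (k : ZMod p) = ((U.eval k : ℤ) : ZMod p) := by
        intro k
        rw [hu, eval_intCast_map]
        rfl
      have hud : u.natDegree ≤ d := by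
        rw [hu, hd]
        exact natDegree_map_le
      have h1 := Pool.Agent.K7.H67.SIV.few_values u d hd1 hud ((r + 1 : ℤ) : ZMod p) (r : ZMod p) (by
        intro h
        push_cast at h
        exact one_ne_zero (add_eq_left.1 h)) (by
        rw [hev, hev, ← sub_eq_zero, ← Int.cast_sub, ZMod.intCast_zmod_eq_zero_iff_dvd]
        exact b3)
      have h2 : ((range p).filter fun n : ℕ => ∃ k : ℤ, ((U.eval k : ℤ) : ZMod p) = (n : ZMod p)).card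
          ≤ (univ.image (fun z => u.eval z)).card := by
        apply card_le_card_of_injOn (fun a : ℕ => (a : ZMod p))
        · intro a ha
          rw [mem_coe, mem_filter] at ha
          obtain ⟨k, hk⟩ := ha.2
          rw [mem_coe, mem_image]
          exact ⟨(k : ZMod p), mem_univ _, by rw [hev, hk]⟩
        · intro a ha b hb hab
          rw [mem_coe, mem_filter, mem_range] at ha hb
          have h6 := (ZMod.natCast_eq_natCast_iff' a b p).1 hab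
          rwa [Nat.mod_eq_of_lt ha.1, Nat.mod_eq_of_lt hb.1] at h6
      have h3 : ((((range p).filter fun n : ℕ => ∃ k : ℤ,
          ((U.eval k : ℤ) : ZMod p) = (n : ZMod p)).card : ℕ) : ℝ) ≤
          ((univ.image (fun z => u.eval z)).card : ℝ) := by exact_mod_cast h2
      have h4 : 1 / (2 * d : ℝ) * p = p / (2 * d) := by ring
      rw [h4]
      linarith)
  have hsub : ((range N).filter fun n => ∃ k : ℤ, U.eval k = a n) ⊆
      ((range N).filter fun n => ∀ p ∈ P, ∃ k : ℤ, ((U.eval k : ℤ) : ZMod p) = (a n : ZMod p)) := by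
    intro n hn
    rw [mem_filter] at hn ⊢
    obtain ⟨hn1, k, hk⟩ := hn
    exact ⟨hn1, fun p _ => ⟨k, by rw [hk]⟩⟩
  obtain ⟨s, hs⟩ : ∃ s : ℝ, s = (((range N).filter fun n => ∃ k : ℤ, U.eval k = a n).card : ℝ) :=
    ⟨_, rfl⟩
  have hs0 : 0 ≤ s := by rw [hs]; positivity
  have hs1 : s * ((1 / (2 * d : ℝ)) ^ 2 * P.card) ≤ 14 * N := by
    refine le_trans ?_ h1
    apply mul_le_mul_of_nonneg_right _ (by positivity)
    rw [hs]
    exact_mod_cast card_le_card hsub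
  rw [← hs]
  have hs2 : s * P.card ≤ 56 * (d : ℝ) ^ 2 * N := by
    have e1 : s * ((1 / (2 * d : ℝ)) ^ 2 * P.card) = s * P.card / (4 * (d : ℝ) ^ 2) := by
      field_simp
      ring
    rw [e1, div_le_iff₀ (by positivity)] at hs1
    linarith
  have hNr : (0 : ℝ) ≤ N := Nat.cast_nonneg N
  have hs3 : s * (Q : ℝ) ^ (4 / 5 : ℝ) * (Q : ℝ) ^ (1 / 20 : ℝ) ≤ N * (Q : ℝ) ^ (1 / 20 : ℝ) := by
    calc s * (Q : ℝ) ^ (4 / 5 : ℝ) * (Q : ℝ) ^ (1 / 20 : ℝ) = s * (Q : ℝ) ^ (17 / 20 : ℝ) := by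
          rw [mul_assoc, ← Real.rpow_add hQ0]
          norm_num
      _ ≤ s * P.card := mul_le_mul_of_nonneg_left hP17 hs0
      _ ≤ 56 * (d : ℝ) ^ 2 * N := hs2
      _ ≤ (Q : ℝ) ^ (1 / 20 : ℝ) * N := mul_le_mul_of_nonneg_right a2 hNr
      _ = N * (Q : ℝ) ^ (1 / 20 : ℝ) := mul_comm _ _
  exact le_of_mul_le_mul_right hs3 (by positivity)

open Classical in
/-- a constant is rarely taken -/
theorem few_const : ∃ Q₀ : ℕ, ∀ Q : ℕ, Q₀ ≤ Q → ∀ N : ℕ,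
    Q ^ 8 ≤ N → ∀ D : ℤ, D ≠ 0 → Real.log |(D : ℝ)| ≤ (Q : ℝ) ^ (1 / 2 : ℝ) → ∀ a : ℕ → ℤ,
    Lin D a → ∀ u : ℤ, (((range N).filter fun n => ∃ k : ℤ, (C u : ℤ[X]).eval k = a n).card : ℝ) *
      (Q : ℝ) ^ (4 / 5 : ℝ) ≤ N := by
  obtain ⟨Q₀, hQ₀⟩ := Pool.Agent.K7.H67.SIV.many_collisions (X ^ 2 : ℤ[X]) (by
    rw [natDegree_X_pow])
  have hev : ∀ᶠ Q : ℕ in Filter.atTop, (Q : ℝ) ^ (17 / 20 : ℝ) + 1 + 2 * (Q : ℝ) ^ (1 / 2 : ℝ) ≤
      (Q : ℝ) ^ (9 / 10 : ℝ) ∧ (56 : ℝ) ≤ (Q : ℝ) ^ (1 / 20 : ℝ) ∧ 1 ≤ Q := by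
    have hc := tendsto_natCast_atTop_atTop (R := ℝ)
    have e2 : ∀ᶠ x : ℝ in Filter.atTop, (56 : ℝ) ≤ x ^ (1 / 20 : ℝ) :=
      (tendsto_rpow_atTop (by norm_num : (0 : ℝ) < 1 / 20)).eventually_ge_atTop _
    filter_upwards [hc.eventually e2, Filter.eventually_ge_atTop 1] with Q a2 a3
    have hQ1 : (1 : ℝ) ≤ Q := by exact_mod_cast a3
    have hQ0 : (0 : ℝ) < Q := by linarith
    refine ⟨?_, a2, a3⟩
    have e3 : (Q : ℝ) ^ (9 / 10 : ℝ) = (Q : ℝ) ^ (1 / 20 : ℝ) * (Q : ℝ) ^ (17 / 20 : ℝ) := by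
      rw [← Real.rpow_add hQ0]
      norm_num
    have e4 : (Q : ℝ) ^ (1 / 2 : ℝ) ≤ (Q : ℝ) ^ (17 / 20 : ℝ) :=
      Real.rpow_le_rpow_of_exponent_le hQ1 (by norm_num)
    have e5 : (1 : ℝ) ≤ (Q : ℝ) ^ (17 / 20 : ℝ) := Real.one_le_rpow hQ1 (by norm_num)
    rw [e3]
    nlinarith
  obtain ⟨Q₁, hQ₁⟩ := hev.exists_forall_of_atTop
  refine ⟨max Q₀ Q₁, fun Q hQ N hN D hD hDQ a ha u => ?_⟩
  obtain ⟨a1, a2, a3⟩ := hQ₁ Q (le_trans (le_max_right _ _) hQ)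
  obtain ⟨P₀, hP₀, hP₀c⟩ := hQ₀ Q (le_trans (le_max_left _ _) hQ)
  obtain ⟨P, hPP, hPg, hPc⟩ := card_good P₀ (fun p hp => (hP₀ p hp).1) D hD _ hDQ
  have hP17 : (Q : ℝ) ^ (17 / 20 : ℝ) ≤ P.card := by linarith
  have hQ1 : (1 : ℝ) ≤ Q := by exact_mod_cast a3
  have hQ0 : (0 : ℝ) < Q := by linarith
  have h1 := sieve ha P Q N (fun p hp => ⟨hPg p hp, (hP₀ p (hPP hp)).2.1⟩) hN
    (fun p t => ∃ k : ℤ, (((C u : ℤ[X]).eval k : ℤ) : ZMod p) = t) (1 / 2) (by positivity) (by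
      intro p hp
      have b1 := (hP₀ p (hPP hp)).1
      have h2 : ((range p).filter fun n : ℕ => ∃ k : ℤ, (((C u : ℤ[X]).eval k : ℤ) : ZMod p) = (n : ZMod p)).card ≤ 1 := by
        rw [card_le_one]
        intro x hx y hy
        rw [mem_filter, mem_range] at hx hy
        obtain ⟨hx1, k, hk⟩ := hx
        obtain ⟨hy1, l, hl⟩ := hy
        rw [eval_C] at hk hl
        have h6 := (ZMod.natCast_eq_natCast_iff' x y p).1 (hk.symm.trans hl)
        rwa [Nat.mod_eq_of_lt hx1, Nat.mod_eq_of_lt hy1] at h6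
      have h3 : ((((range p).filter fun n : ℕ => ∃ k : ℤ, (((C u : ℤ[X]).eval k : ℤ) : ZMod p) = (n : ZMod p)).card : ℕ) : ℝ) ≤ 1 := by
        exact_mod_cast h2
      have h4 : (2 : ℝ) ≤ p := by exact_mod_cast b1.two_le
      linarith)
  have hsub : ((range N).filter fun n => ∃ k : ℤ, (C u : ℤ[X]).eval k = a n) ⊆
      ((range N).filter fun n => ∀ p ∈ P, ∃ k : ℤ, (((C u : ℤ[X]).eval k : ℤ) : ZMod p) =
        (a n : ZMod p)) := by
    intro n hn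
    rw [mem_filter] at hn ⊢
    obtain ⟨hn1, k, hk⟩ := hn
    exact ⟨hn1, fun p _ => ⟨k, by rw [hk]⟩⟩
  obtain ⟨s, hs⟩ : ∃ s : ℝ, s = (((range N).filter fun n =>
    ∃ k : ℤ, (C u : ℤ[X]).eval k = a n).card : ℝ) := ⟨_, rfl⟩
  have hs0 : 0 ≤ s := by rw [hs]; positivity
  have hs1 : s * ((1 / 2 : ℝ) ^ 2 * P.card) ≤ 14 * N := by
    refine le_trans ?_ h1
    apply mul_le_mul_of_nonneg_right _ (by positivity)
    rw [hs]
    exact_mod_cast card_le_card hsub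
  rw [← hs]
  have hs2 : s * P.card ≤ 56 * N := by linarith
  have hNr : (0 : ℝ) ≤ N := Nat.cast_nonneg N
  have hs3 : s * (Q : ℝ) ^ (4 / 5 : ℝ) * (Q : ℝ) ^ (1 / 20 : ℝ) ≤ N * (Q : ℝ) ^ (1 / 20 : ℝ) := by
    calc s * (Q : ℝ) ^ (4 / 5 : ℝ) * (Q : ℝ) ^ (1 / 20 : ℝ) = s * (Q : ℝ) ^ (17 / 20 : ℝ) := by
          rw [mul_assoc, ← Real.rpow_add hQ0]
          norm_num
      _ ≤ s * P.card := mul_le_mul_of_nonneg_left hP17 hs0
      _ ≤ 56 * N := hs2
      _ ≤ (Q : ℝ) ^ (1 / 20 : ℝ) * N := mul_le_mul_of_nonneg_right a2 hNr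
      _ = N * (Q : ℝ) ^ (1 / 20 : ℝ) := mul_comm _ _
  exact le_of_mul_le_mul_right hs3 (by positivity)

end Pool.Agent.H73.EF
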